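import Mathlib

/-! Elements of a number field inside the product of its complex embeddings. -/

set_option autoImplicit false

namespace Pool.Agent.Run7.h453.DE

open Filter Topology

variable {E : Type} [Field E] [NumberField E] {ι : Type} [Fintype ι] [DecidableEq ι]

theorem sum_emb (x : E) : ∑ τ : E →+* ℂ, τ x = ((Algebra.trace ℚ E x : ℚ) : ℂ) := by
  have h1 := trace_eq_sum_embeddings (K := ℚ) (L := E) ℂ (x := x)
  have h2 : ∑ τ : E →+* ℂ, τ x = ∑ σ : E →ₐ[ℚ] ℂ, σ x := by
    refine Fintype.sum_equiv (RingHom.equivRatAlgHom E ℂ) _ _ fun τ => rfl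
  rw [h2, ← h1]
  simp

theorem mat_one (b : Module.Basis ι ℚ E) (i j : ι) :
    ∑ τ : E →+* ℂ, τ (b.traceDual i) * τ (b j) = if i = j then 1 else 0 := by
  simp only [← map_mul]
  rw [sum_emb, Module.Basis.trace_traceDual_mul]
  split_ifs with h1 h2 h2
  · simp
  · exact absurd h1.symm h2
  · exact absurd h2.symm h1
  · simp

open Classical in
theorem mat_one' (b : Module.Basis ι ℚ E) (τ τ' : E →+* ℂ) :
    ∑ i, τ (b i) * τ' (b.traceDual i) = if τ = τ' then 1 else 0 := by
  have hc : Fintype.card ι = Fintype.card (E →+* ℂ) := by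
    rw [NumberField.Embeddings.card, Module.finrank_eq_card_basis b]
  let M : Matrix ι (E →+* ℂ) ℂ := Matrix.of fun i τ => τ (b.traceDual i)
  let N : Matrix (E →+* ℂ) ι ℂ := Matrix.of fun τ i => τ (b i)
  have h1 : M * N = 1 := by
    ext i j
    rw [Matrix.mul_apply, Matrix.one_apply]
    exact mat_one b i j
  have h2 : N * M = 1 := (Matrix.mul_eq_one_comm_of_card_eq _ _ _ hc).1 h1
  have h3 := congrFun (congrFun h2 τ) τ'
  rw [Matrix.mul_apply, Matrix.one_apply] at h3
  exact h3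

theorem inv_emb (b : Module.Basis ι ℚ E) (y : (E →+* ℂ) → ℂ) (τ : E →+* ℂ) :
    ∑ i, τ (b i) * ∑ τ' : E →+* ℂ, τ' (b.traceDual i) * y τ' = y τ := by
  classical
  simp only [Finset.mul_sum, ← mul_assoc]
  rw [Finset.sum_comm]
  simp only [← Finset.sum_mul, mat_one']
  simp

/-- rationality of the limit -/
theorem limit_iff (b : Module.Basis ι ℚ E) (V : (E →+* ℂ) → ℝ → ℂ) (l : Filter ℝ) :
    (∃ e : E, ∀ τ, Tendsto (V τ) l (𝓝 (τ e))) ↔
      ∀ i, ∃ q : ℚ, Tendsto (fun T => ∑ τ : E →+* ℂ, τ (b.traceDual i) * V τ T) l (𝓝 (q : ℂ)) := by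
  constructor
  · rintro ⟨e, he⟩ i
    refine ⟨Algebra.trace ℚ E (b.traceDual i * e), ?_⟩
    rw [← sum_emb]
    simp only [map_mul]
    exact tendsto_finsetSum _ fun τ _ => (he τ).const_mul _
  · intro h
    choose q hq using h
    refine ⟨∑ i, q i • b i, fun τ => ?_⟩
    have h1 : V τ = fun T => ∑ i, τ (b i) * ∑ τ' : E →+* ℂ, τ' (b.traceDual i) * V τ' T := by
      funext T
      rw [inv_emb b (fun τ => V τ T)]
    rw [h1]
    have h2 : τ (∑ i, q i • b i) = ∑ i, τ (b i) * (q i : ℂ) := by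
      rw [map_sum]
      refine Finset.sum_congr rfl fun i _ => ?_
      rw [Algebra.smul_def, map_mul, mul_comm]
      congr 1
      simp
    rw [h2]
    exact tendsto_finsetSum _ fun i _ => (hq i).const_mul _

end Pool.Agent.Run7.h453.DE
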